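import Mathlib
import Pool.Agent.H695R3.PP.Stmts

set_option autoImplicit false

open Filter Topology

namespace Pool.Agent.H847R3.PP

theorem summ (κ A : ℝ) (hκ : 0 < κ) (hA : 1 ≤ A) :
    Summable (fun k : ℕ => A ^ k * Real.exp (-(κ * 4 ^ k))) := by
  have hA0 : 0 < A := by linarith
  refine summable_of_ratio_test_tendsto_lt_one (l := 0) (by norm_num)
    (Eventually.of_forall fun k => by positivity) ?_
  have h1 : ∀ k : ℕ, ‖A ^ (k + 1) * Real.exp (-(κ * 4 ^ (k + 1)))‖ /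
      ‖A ^ k * Real.exp (-(κ * 4 ^ k))‖ = A * Real.exp (-((3 * κ) * 4 ^ k)) := by
    intro k
    rw [Real.norm_of_nonneg (by positivity), Real.norm_of_nonneg (by positivity)]
    rw [div_eq_iff (by positivity)]
    have e : Real.exp (-(κ * 4 ^ (k + 1))) =
        Real.exp (-((3 * κ) * 4 ^ k)) * Real.exp (-(κ * 4 ^ k)) := by
      rw [← Real.exp_add]
      congr 1
      ring
    rw [e]
    ring
  simp_rw [h1]
  have h2 : Tendsto (fun k : ℕ => (3 * κ) * (4 : ℝ) ^ k) atTop atTop :=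
    (tendsto_pow_atTop_atTop_of_one_lt (by norm_num : (1 : ℝ) < 4)).const_mul_atTop (by positivity)
  have h3 := (Real.tendsto_exp_neg_atTop_nhds_zero.comp h2).const_mul A
  simpa using h3

theorem taskNum : Pool.Agent.H695R3.PP.TaskNum := by
  intro κ A hκ hA
  have hA0 : 0 < A := by linarith
  refine ⟨summ κ A hκ hA, ?_⟩
  have hS : Summable (fun j : ℕ => Real.exp (-(κ * j))) := by
    have h := Real.summable_exp_nat_mul_iff.2 (show -κ < 0 by linarith)
    refine h.congr fun j => ?_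
    congr 1
    ring
  have hpow : ∀ k j : ℕ, (4 : ℝ) ^ k + j ≤ 4 ^ (k + j) := by
    intro k j
    have h1 : (1 : ℝ) + j ≤ 4 ^ j := by
      have h := one_add_mul_le_pow (show (-2 : ℝ) ≤ 3 by norm_num) j
      have h0 : (0 : ℝ) ≤ j := Nat.cast_nonneg j
      have : (1 + (3 : ℝ)) ^ j = 4 ^ j := by norm_num
      rw [this] at h
      linarith
    have h2 : (1 : ℝ) ≤ 4 ^ k := one_le_pow₀ (by norm_num)
    have h0 : (0 : ℝ) ≤ j := Nat.cast_nonneg j
    rw [pow_add]
    nlinarith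
  have hle : ∀ k j : ℕ, Real.exp (-(κ * 4 ^ (k + j))) ≤
      Real.exp (-(κ * 4 ^ k)) * Real.exp (-(κ * j)) := by
    intro k j
    rw [← Real.exp_add]
    apply Real.exp_le_exp.2
    have := mul_le_mul_of_nonneg_left (hpow k j) hκ.le
    linarith
  have hS2 : ∀ k : ℕ, Summable (fun j : ℕ => Real.exp (-(κ * 4 ^ (k + j)))) := fun k =>
    Summable.of_nonneg_of_le (fun j => (Real.exp_pos _).le) (hle k) (hS.mul_left _)
  have hbd : ∀ k : ℕ, A ^ k * ∑' j : ℕ, Real.exp (-(κ * 4 ^ (k + j))) ≤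
      (A ^ k * Real.exp (-(κ * 4 ^ k))) * ∑' j : ℕ, Real.exp (-(κ * j)) := by
    intro k
    have h1 := (hS2 k).tsum_le_tsum (hle k) (hS.mul_left _)
    rw [tsum_mul_left] at h1
    rw [mul_assoc]
    exact mul_le_mul_of_nonneg_left h1 (by positivity)
  have hz := (summ κ A hκ hA).tendsto_atTop_zero
  have hz2 := hz.mul_const (∑' j : ℕ, Real.exp (-(κ * j)))
  rw [zero_mul] at hz2
  refine squeeze_zero (fun k => ?_) hbd hz2
  have : 0 ≤ ∑' j : ℕ, Real.exp (-(κ * 4 ^ (k + j))) := tsum_nonneg fun j => (Real.exp_pos _).le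
  positivity

end Pool.Agent.H847R3.PP
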